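import Mathlib

set_option autoImplicit false

/-!
# Helper lemmas for the exact two pass law

`even_sq`: an even holomorphic function on the unit disc is a function of `w ^ 2`.
`eq_of_real_near`: a holomorphic function which is real near a point is constant near the point.
-/

namespace Pool.H81.MM

open Complex Metric Set Filter Topology

theorem sq_cpow_half (u : ℂ) : (u ^ (1 / 2 : ℂ)) ^ 2 = u := by
  have h := Complex.cpow_nat_inv_pow u (n := 2) (by norm_num)
  simp

theorem eq_or_neg_of_sq {a b : ℂ} (h : a ^ 2 = b ^ 2) : a = b ∨ a = -b := by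
  have : (a - b) * (a + b) = 0 := by ring_nf; rw [h]; ring
  rcases mul_eq_zero.1 this with h | h
  · left; linear_combination h
  · right; linear_combination h

/-- An even holomorphic function on the unit disc is a function of `w ^ 2`. -/
theorem even_sq {g : ℂ → ℂ} (hg : DifferentiableOn ℂ g (ball 0 1))
    (he : ∀ w ∈ ball (0 : ℂ) 1, g (-w) = g w) :
    ∃ Ψ : ℂ → ℂ, DifferentiableOn ℂ Ψ (ball 0 1) ∧ ∀ w ∈ ball (0 : ℂ) 1, g w = Ψ (w ^ 2) := by
  have hn : ∀ u x : ℂ, u ∈ ball (0 : ℂ) 1 → x ^ 2 = u → x ∈ ball (0 : ℂ) 1 := by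
    intro u x hu hx
    rw [mem_ball_zero_iff] at hu ⊢
    rw [← hx, norm_pow] at hu
    by_contra hc
    push Not at hc
    nlinarith [norm_nonneg x]
  have key : ∀ u x y : ℂ, u ∈ ball (0 : ℂ) 1 → x ^ 2 = u → y ^ 2 = u → g x = g y := by
    intro u x y hu hx hy
    rcases eq_or_neg_of_sq (hx.trans hy.symm) with h | h
    · rw [h]
    · rw [h]; exact he y (hn u y hu hy)
  refine ⟨fun u => g (u ^ (1 / 2 : ℂ)), ?_, ?_⟩
  · rw [← Complex.differentiableOn_compl_singleton_and_continuousAt_iff
      (c := 0) (isOpen_ball.mem_nhds (mem_ball_self one_pos))]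
    refine ⟨?_, ?_⟩
    · intro u hu
      obtain ⟨hu1, hu0⟩ := hu
      have hu0' : u ≠ 0 := by simpa using hu0
      refine DifferentiableAt.differentiableWithinAt ?_
      rcases em (u ∈ slitPlane) with hs | hs
      · have h1 : DifferentiableAt ℂ g (u ^ (1 / 2 : ℂ)) :=
          hg.differentiableAt (isOpen_ball.mem_nhds (hn u _ hu1 (sq_cpow_half u)))
        have h2 : DifferentiableAt ℂ (fun v : ℂ => v ^ (1 / 2 : ℂ)) u :=
          (differentiableAt_id).cpow_const hs
        exact DifferentiableAt.comp u h1 h2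
      · have hs' : -u ∈ slitPlane := by
          rw [mem_slitPlane_iff] at hs ⊢
          push Not at hs
          left
          rcases hs.1.lt_or_eq with h | h
          · simpa using h
          · exact absurd (Complex.ext h hs.2) hu0'
        have hq : ∀ v : ℂ, (I * (-v) ^ (1 / 2 : ℂ)) ^ 2 = v := by
          intro v
          rw [mul_pow, sq_cpow_half, I_sq]; ring
        have h1 : DifferentiableAt ℂ g (I * (-u) ^ (1 / 2 : ℂ)) :=
          hg.differentiableAt (isOpen_ball.mem_nhds (hn u _ hu1 (hq u)))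
        have h2 : DifferentiableAt ℂ (fun v : ℂ => I * (-v) ^ (1 / 2 : ℂ)) u :=
          ((differentiableAt_id.neg).cpow_const hs').const_mul I
        have h3 : DifferentiableAt ℂ (fun v : ℂ => g (I * (-v) ^ (1 / 2 : ℂ))) u :=
          DifferentiableAt.comp u h1 h2
        refine h3.congr_of_eventuallyEq ?_
        filter_upwards [isOpen_ball.mem_nhds hu1] with v hv
        exact key v _ _ hv (sq_cpow_half v) (hq v)
    · have h1 : ContinuousAt g ((0 : ℂ) ^ (1 / 2 : ℂ)) := by
        have : (0 : ℂ) ^ (1 / 2 : ℂ) = 0 := by simp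
        rw [this]
        exact (hg.differentiableAt (isOpen_ball.mem_nhds (mem_ball_self one_pos))).continuousAt
      have h2 : ContinuousAt (fun v : ℂ => v ^ (1 / 2 : ℂ)) 0 := by
        apply Complex.continuousAt_cpow_const_of_re_pos
        · simp
        · norm_num
      exact ContinuousAt.comp (f := fun v : ℂ => v ^ (1 / 2 : ℂ)) h1 h2
  · intro w hw
    have hw2 : w ^ 2 ∈ ball (0 : ℂ) 1 := by
      rw [mem_ball_zero_iff] at hw ⊢
      rw [norm_pow]
      nlinarith [norm_nonneg w]
    exact key (w ^ 2) w _ hw2 rfl (sq_cpow_half _)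

/-- A holomorphic function which is real near a point is constant near the point. -/
theorem eq_of_real_near {R : ℂ → ℂ} {p : ℂ} (hR : AnalyticAt ℂ R p)
    (h : ∀ᶠ w in 𝓝 p, (R w).im = 0) : ∀ᶠ w in 𝓝 p, R w = R p := by
  rcases hR.eventually_constant_or_nhds_le_map_nhds with h1 | h1
  · exact h1
  · exfalso
    have h2 : {z : ℂ | z.im = 0} ∈ 𝓝 (R p) := h1 (mem_map.2 h)
    have h0 : (R p).im = 0 := h.self_of_nhds
    obtain ⟨ε, hε, hb⟩ := Metric.mem_nhds_iff.1 h2
    have h3 : R p + (ε / 2 : ℝ) * I ∈ ball (R p) ε := by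
      rw [mem_ball, dist_eq_norm]
      simp only [add_sub_cancel_left, norm_mul, norm_real, norm_I, mul_one, Real.norm_eq_abs]
      rw [abs_of_pos (by positivity)]
      linarith
    have h4 := hb h3
    simp [h0] at h4
    linarith

/-- A continuous function which is real in a punctured neighbourhood is real at the point. -/
theorem real_of_punctured {R : ℂ → ℂ} {p : ℂ} (hR : ContinuousAt R p)
    (h : ∀ᶠ w in 𝓝[≠] p, (R w).im = 0) : (R p).im = 0 := by
  have h1 : Tendsto (fun w => (R w).im) (𝓝[≠] p) (𝓝 (R p).im) :=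
    ((Complex.continuous_im.continuousAt.comp hR).tendsto).mono_left nhdsWithin_le_nhds
  have h2 : Tendsto (fun w => (R w).im) (𝓝[≠] p) (𝓝 0) :=
    (tendsto_const_nhds (x := (0 : ℝ))).congr' (h.mono fun w hw => hw.symm)
  exact tendsto_nhds_unique h1 h2

/-- If the derivative vanishes near a point, the function is constant near the point. -/
theorem const_of_deriv_zero_near {g : ℂ → ℂ} {p : ℂ} (hg : ∀ᶠ w in 𝓝 p, DifferentiableAt ℂ g w)
    (h : ∀ᶠ w in 𝓝 p, deriv g w = 0) : ∀ᶠ w in 𝓝 p, g w = g p := by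
  obtain ⟨r, hr, hb⟩ := Metric.eventually_nhds_iff_ball.1 (hg.and h)
  filter_upwards [isOpen_ball.mem_nhds (mem_ball_self hr)] with w hw
  exact IsOpen.is_const_of_deriv_eq_zero (𝕜 := ℂ) isOpen_ball (convex_ball p r).isPreconnected
    (fun z hz => (hb z hz).1.differentiableWithinAt) (fun z hz => (hb z hz).2) hw
    (mem_ball_self hr)

/-- A complex number of modulus one which is real has square one. -/
theorem sq_of_real {ω : ℂ} (h1 : ‖ω‖ = 1) (h : ω.im = 0) : ω ^ 2 = 1 := by
  have h2 : ω = (ω.re : ℂ) := Complex.ext (by simp) (by simp [h])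
  have h3 : |ω.re| = 1 := by
    rw [h2, norm_real, Real.norm_eq_abs] at h1
    exact h1
  have h4 : ω.re ^ 2 = 1 := by rw [← sq_abs, h3]; norm_num
  rw [h2]
  exact_mod_cast h4

end Pool.H81.MM
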