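import Mathlib
import Pool.Agent.H81.MM.Even

set_option autoImplicit false

/-!
# Moebius maps of the unit disc (for the exact two pass law)
-/

namespace Pool.H81.MM

open Complex Metric Set Filter Topology ComplexConjugate

/-- The Moebius map of the unit disc with `mob e 0 = e`. -/
noncomputable def mob (e u : ℂ) : ℂ := (u + e) / (1 + conj e * u)

theorem mob_den {e u : ℂ} (he : ‖e‖ < 1) (hu : ‖u‖ < 1) : 1 + conj e * u ≠ 0 := by
  intro h
  have h1 : conj e * u = -1 := by linear_combination h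
  have h2 : ‖conj e * u‖ = 1 := by rw [h1]; simp
  rw [norm_mul, RCLike.norm_conj] at h2
  nlinarith [norm_nonneg e, norm_nonneg u]

theorem mob_lt {e u : ℂ} (he : ‖e‖ < 1) (hu : ‖u‖ < 1) : ‖mob e u‖ < 1 := by
  unfold mob
  rw [norm_div, div_lt_one (norm_pos_iff.2 (mob_den he hu))]
  have h1 : ‖u + e‖ ^ 2 < ‖1 + conj e * u‖ ^ 2 := by
    rw [← normSq_eq_norm_sq, ← normSq_eq_norm_sq]
    have e1 : ‖e‖ ^ 2 < 1 := by nlinarith [norm_nonneg e]
    have e2 : ‖u‖ ^ 2 < 1 := by nlinarith [norm_nonneg u]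
    rw [← normSq_eq_norm_sq, normSq_apply] at e1 e2
    simp only [normSq_apply, add_re, add_im, mul_re, mul_im, conj_re, conj_im, one_re, one_im]
    nlinarith [mul_pos (sub_pos.2 e1) (sub_pos.2 e2)]
  exact lt_of_pow_lt_pow_left₀ 2 (norm_nonneg _) h1

theorem mob_inv {e u : ℂ} (he : ‖e‖ < 1) (hu : ‖u‖ < 1) : mob (-e) (mob e u) = u := by
  have h1 := mob_den he hu
  have h2 := mob_den (e := -e) (by simpa using he) (mob_lt he hu)
  have h3 : (1 : ℂ) - conj e * e ≠ 0 := by
    intro h
    have : conj e * e = 1 := by linear_combination -h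
    have h4 : ‖conj e * e‖ = 1 := by rw [this]; simp
    rw [norm_mul, RCLike.norm_conj] at h4
    nlinarith [norm_nonneg e]
  have h5 : mob (-e) (mob e u) = (mob e u - e) / (1 - conj e * mob e u) := by
    simp [mob, sub_eq_add_neg]
  rw [h5]
  have h6 : mob e u - e = u * (1 - conj e * e) / (1 + conj e * u) := by
    unfold mob
    rw [eq_div_iff h1, sub_mul, div_mul_cancel₀ _ h1]
    ring
  have h7 : 1 - conj e * mob e u = (1 - conj e * e) / (1 + conj e * u) := by
    unfold mob
    rw [eq_div_iff h1, sub_mul, mul_assoc, div_mul_cancel₀ _ h1]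
    ring
  rw [h6, h7, div_div_div_cancel_right₀ h1, mul_div_assoc, div_self h3, mul_one]

theorem mob_inv' {e u : ℂ} (he : ‖e‖ < 1) (hu : ‖u‖ < 1) : mob e (mob (-e) u) = u := by
  have := mob_inv (e := -e) (u := u) (by simpa using he) hu
  simpa using this

theorem mob_zero (e : ℂ) : mob e 0 = e := by simp [mob]

theorem mob_neg (e : ℂ) : mob e (-e) = 0 := by simp [mob]

theorem mob_hasDerivAt {e u : ℂ} (he : ‖e‖ < 1) (hu : ‖u‖ < 1) :
    HasDerivAt (mob e) ((1 - conj e * e) / (1 + conj e * u) ^ 2) u := by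
  have h1 := mob_den he hu
  have h2 : HasDerivAt (fun u : ℂ => u + e) 1 u := (hasDerivAt_id u).add_const e
  have h3 : HasDerivAt (fun u : ℂ => 1 + conj e * u) (conj e) u := by
    have := ((hasDerivAt_id u).const_mul (conj e)).const_add 1
    simpa using this
  have h4 := h2.div h3 h1
  have h5 : (1 * (1 + conj e * u) - (u + e) * conj e) / (1 + conj e * u) ^ 2 =
      (1 - conj e * e) / (1 + conj e * u) ^ 2 := by
    congr 1
    ring
  rw [h5] at h4
  exact h4

theorem mob_deriv_ne {e u : ℂ} (he : ‖e‖ < 1) (hu : ‖u‖ < 1) :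
    (1 - conj e * e) / (1 + conj e * u) ^ 2 ≠ 0 := by
  refine div_ne_zero ?_ (pow_ne_zero _ (mob_den he hu))
  intro h
  have : conj e * e = 1 := by linear_combination -h
  have h4 : ‖conj e * e‖ = 1 := by rw [this]; simp
  rw [norm_mul, RCLike.norm_conj] at h4
  nlinarith [norm_nonneg e]

theorem mob_eq_zero {e u : ℂ} (he : ‖e‖ < 1) (hu : ‖u‖ < 1) (h : mob e u = 0) : u = -e := by
  unfold mob at h
  rcases div_eq_zero_iff.1 h with h | h
  · linear_combination h
  · exact absurd h (mob_den he hu)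

end Pool.H81.MM
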