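import Mathlib
import Pool.Agent.H81.MM.Mob

set_option autoImplicit false

/-!
# The exact two pass law

Two successive passes through critical points, seen from a univalent chart: the map
`F w = (mob e (w ^ lb)) ^ lc` on the unit disc cannot have the property that all its local deck maps are
real affine in a holomorphic coordinate `Φ` without critical points.
-/

namespace Pool.H81.MM

open Complex Metric Set Filter Topology ComplexConjugate

/-- Two passes: first of order `lb` with critical value `0 ↦ e`, then of order `lc`. -/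
noncomputable def pass (e : ℂ) (lb lc : ℕ) (w : ℂ) : ℂ := (mob e (w ^ lb)) ^ lc

theorem pow_lt {w : ℂ} {l : ℕ} (hl : l ≠ 0) (hw : ‖w‖ < 1) : ‖w ^ l‖ < 1 := by
  rw [norm_pow]
  exact pow_lt_one₀ (norm_nonneg _) hw hl

theorem pass_hasDerivAt {e w : ℂ} (he : ‖e‖ < 1) {lb lc : ℕ} (hlb : lb ≠ 0) (hw : ‖w‖ < 1) :
    HasDerivAt (pass e lb lc) ((lc : ℂ) * mob e (w ^ lb) ^ (lc - 1) *
      ((1 - conj e * e) / (1 + conj e * w ^ lb) ^ 2 * ((lb : ℂ) * w ^ (lb - 1)))) w := by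
  have h1 : HasDerivAt (fun w : ℂ => w ^ lb) ((lb : ℂ) * w ^ (lb - 1)) w := hasDerivAt_pow lb w
  have h2 : HasDerivAt (fun w : ℂ => mob e (w ^ lb))
      ((1 - conj e * e) / (1 + conj e * w ^ lb) ^ 2 * ((lb : ℂ) * w ^ (lb - 1))) w :=
    HasDerivAt.comp w (mob_hasDerivAt he (pow_lt hlb hw)) h1
  exact h2.pow lc

theorem pass_deriv_ne {e w : ℂ} (he : ‖e‖ < 1) {lb lc : ℕ} (hlb : lb ≠ 0) (hlc : lc ≠ 0)
    (hw : ‖w‖ < 1) (h0 : w ≠ 0) (h1 : w ^ lb ≠ -e) : deriv (pass e lb lc) w ≠ 0 := by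
  rw [(pass_hasDerivAt he hlb hw).deriv]
  refine mul_ne_zero (mul_ne_zero (by exact_mod_cast hlc) (pow_ne_zero _ ?_))
    (mul_ne_zero (mob_deriv_ne he (pow_lt hlb hw)) (mul_ne_zero (by exact_mod_cast hlb)
      (pow_ne_zero _ h0)))
  intro h
  exact h1 (mob_eq_zero he (pow_lt hlb hw) h)

theorem eventually_good (e : ℂ) {lb : ℕ} (hlb : lb ≠ 0) (w0 : ℂ) :
    ∀ᶠ w in 𝓝[≠] w0, w ≠ 0 ∧ w ^ lb ≠ -e := by
  have hfin : ({0} ∪ {w : ℂ | w ^ lb = -e}).Finite := by
    refine (finite_singleton 0).union ?_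
    refine (Polynomial.nthRoots lb (-e)).toFinset.finite_toSet.subset ?_
    intro w hw
    simp only [Finset.mem_coe, Multiset.mem_toFinset]
    rw [Polynomial.mem_nthRoots (Nat.pos_of_ne_zero hlb)]
    exact hw
  have h := nhdsNE_le_cofinite w0 hfin.compl_mem_cofinite
  filter_upwards [h] with w hw
  simp only [mem_compl_iff, mem_union, mem_singleton_iff, mem_ofPred_eq, not_or] at hw
  exact hw

/-- The invariance: `s(w) = s(w')` for the phase `s = conj Φ' F' / (Φ' conj F')`. -/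
def Inv (F Φ : ℂ → ℂ) : Prop :=
  ∀ w ∈ ball (0 : ℂ) 1, ∀ w' ∈ ball (0 : ℂ) 1, F w = F w' → deriv F w ≠ 0 → deriv F w' ≠ 0 →
    conj (deriv Φ w) * deriv F w * (deriv Φ w' * conj (deriv F w')) =
      conj (deriv Φ w') * deriv F w' * (deriv Φ w * conj (deriv F w))

theorem real_transfer {F Φ τ : ℂ → ℂ} (hs : Inv F Φ)
    (hd : ∀ w ∈ ball (0 : ℂ) 1, deriv Φ w ≠ 0) {w : ℂ} (hw : w ∈ ball (0 : ℂ) 1)
    (hτw : τ w ∈ ball (0 : ℂ) 1) (hτ : DifferentiableAt ℂ τ w) (hF : DifferentiableAt ℂ F (τ w))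
    (h : (fun z => F (τ z)) =ᶠ[𝓝 w] F) (hne : deriv F w ≠ 0) :
    (deriv Φ (τ w) * deriv τ w / deriv Φ w).im = 0 := by
  have h1 : deriv F w = deriv F (τ w) * deriv τ w := by
    rw [← h.deriv_eq]
    exact deriv_comp (h₂ := F) (h := τ) w hF hτ
  have h2 : deriv F (τ w) ≠ 0 := by
    intro h0
    rw [h1, h0, zero_mul] at hne
    exact hne rfl
  have h3 := hs w hw (τ w) hτw h.self_of_nhds.symm hne h2
  set a := deriv Φ w with ha
  set b := deriv Φ (τ w) with hb
  set D := deriv F (τ w) with hD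
  set T := deriv τ w with hT
  have ha0 : a ≠ 0 := hd w hw
  have hD' : conj D ≠ 0 := by simpa using h2
  have ha' : conj a ≠ 0 := by simpa using ha0
  rw [h1, map_mul] at h3
  have h4 : conj a * (T * b) = conj b * (conj T * a) := by
    have h5 : (D * conj D) * (conj a * (T * b) - conj b * (conj T * a)) = 0 := by
      linear_combination h3
    rcases mul_eq_zero.1 h5 with h6 | h6
    · rcases mul_eq_zero.1 h6 with h7 | h7
      · exact absurd h7 h2
      · exact absurd h7 hD'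
    · linear_combination h6
  rw [← Complex.conj_eq_iff_im, map_div₀, map_mul, div_eq_div_iff ha' ha0]
  linear_combination -h4

/-- Rotations: a root of unity which fixes `F` is `± 1`, and the quotient is real. -/
theorem rot {F Φ : ℂ → ℂ} (hs : Inv F Φ) (hΦ : DifferentiableOn ℂ Φ (ball 0 1))
    (hd : ∀ w ∈ ball (0 : ℂ) 1, deriv Φ w ≠ 0)
    (hF : ∀ w ∈ ball (0 : ℂ) 1, DifferentiableAt ℂ F w)
    (hgood : ∀ w0 ∈ ball (0 : ℂ) 1, ∀ᶠ w in 𝓝[≠] w0, deriv F w ≠ 0)
    {ω : ℂ} (hω : ‖ω‖ = 1) (hFω : ∀ w, F (ω * w) = F w) :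
    ∀ w ∈ ball (0 : ℂ) 1, (deriv Φ (ω * w) * ω / deriv Φ w).im = 0 := by
  have hmem : ∀ w ∈ ball (0 : ℂ) 1, ω * w ∈ ball (0 : ℂ) 1 := by
    intro w hw
    rw [mem_ball_zero_iff] at hw ⊢
    rw [norm_mul, hω, one_mul]
    exact hw
  have hA : AnalyticOnNhd ℂ (deriv Φ) (ball 0 1) := (hΦ.analyticOnNhd isOpen_ball).deriv
  intro w hw
  have hc : ContinuousAt (fun w => deriv Φ (ω * w) * ω / deriv Φ w) w := by
    refine ContinuousAt.div₀ ?_ (hA w hw).continuousAt (hd w hw)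
    refine ContinuousAt.mul ?_ continuousAt_const
    exact ContinuousAt.comp (f := fun w => ω * w) (hA (ω * w) (hmem w hw)).continuousAt
      (continuousAt_const.mul continuousAt_id)
  refine real_of_punctured (R := fun w => deriv Φ (ω * w) * ω / deriv Φ w) hc ?_
  filter_upwards [hgood w hw, nhdsWithin_le_nhds (isOpen_ball.mem_nhds hw)] with z hz1 hz2
  have h := real_transfer (τ := fun w => ω * w) hs hd hz2 (hmem z hz2)
    (differentiableAt_id.const_mul ω) (hF _ (hmem z hz2))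
    (Filter.Eventually.of_forall fun w => hFω w) hz1
  have h2 : deriv (fun w : ℂ => ω * w) z = ω := by
    have := ((hasDerivAt_id z).const_mul ω).deriv
    rw [mul_one] at this
    exact this
  rw [h2] at h
  exact h

theorem two_pass {lb lc : ℕ} (hlb : 2 ≤ lb) (hlc : 2 ≤ lc) {e : ℂ} (he : ‖e‖ < 1) {Φ : ℂ → ℂ}
    (hΦ : DifferentiableOn ℂ Φ (ball 0 1)) (hd : ∀ w ∈ ball (0 : ℂ) 1, deriv Φ w ≠ 0)
    (hs : Inv (pass e lb lc) Φ) : False := by
  have hlb0 : lb ≠ 0 := by omega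
  have hlc0 : lc ≠ 0 := by omega
  have h0b : (0 : ℂ) ∈ ball (0 : ℂ) 1 := mem_ball_self one_pos
  have hF : ∀ w ∈ ball (0 : ℂ) 1, DifferentiableAt ℂ (pass e lb lc) w := fun w hw =>
    (pass_hasDerivAt he hlb0 (mem_ball_zero_iff.1 hw)).differentiableAt
  have hgood : ∀ w0 ∈ ball (0 : ℂ) 1, ∀ᶠ w in 𝓝[≠] w0, deriv (pass e lb lc) w ≠ 0 := by
    intro w0 hw0
    filter_upwards [eventually_good e hlb0 w0, nhdsWithin_le_nhds (isOpen_ball.mem_nhds hw0)]
      with w h1 h2
    exact pass_deriv_ne he hlb0 hlc0 (mem_ball_zero_iff.1 h2) h1.1 h1.2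
  have hrot0 : ∀ ω : ℂ, ‖ω‖ = 1 → (∀ w, pass e lb lc (ω * w) = pass e lb lc w) → ω ^ 2 = 1 := by
    intro ω hω h
    have h1 := rot hs hΦ hd hF hgood hω h 0 h0b
    rw [mul_zero, mul_comm, mul_div_assoc, div_self (hd 0 h0b), mul_one] at h1
    exact sq_of_real hω h1
  -- the order `lb` is two
  have hlb2 : lb = 2 := by
    have hp := Complex.isPrimitiveRoot_exp lb hlb0
    have h1 := hrot0 _ (hp.norm'_eq_one hlb0) (by
      intro w
      simp only [pass, mul_pow, hp.pow_eq_one, one_mul])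
    have h2 := Nat.le_of_dvd (by norm_num) (hp.dvd_of_pow_eq_one 2 h1)
    omega
  -- `e ≠ 0`
  have he0 : e ≠ 0 := by
    intro h
    have hp := Complex.isPrimitiveRoot_exp (lb * lc) (mul_ne_zero hlb0 hlc0)
    have h1 := hrot0 _ (hp.norm'_eq_one (mul_ne_zero hlb0 hlc0)) (by
      intro w
      subst h
      simp only [pass, mob, map_zero, zero_mul, add_zero, div_one, ← pow_mul, mul_pow,
        hp.pow_eq_one, one_mul])
    have h2 := Nat.le_of_dvd (by norm_num) (hp.dvd_of_pow_eq_one 2 h1)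
    nlinarith
  subst hlb2
  -- `φ = Φ - Φ 0` is odd
  have hA : AnalyticOnNhd ℂ Φ (ball 0 1) := hΦ.analyticOnNhd isOpen_ball
  have hA' : AnalyticOnNhd ℂ (deriv Φ) (ball 0 1) := hA.deriv
  have hnegb : ∀ w ∈ ball (0 : ℂ) 1, -w ∈ ball (0 : ℂ) 1 := by
    intro w hw
    simpa using hw
  have hodd : ∀ w ∈ ball (0 : ℂ) 1, Φ (-w) + Φ w = 2 * Φ 0 := by
    have h1 := rot hs hΦ hd hF hgood (ω := -1) (by simp) (by
      intro w
      simp [pass])
    have hAn : AnalyticOnNhd ℂ (fun w => deriv Φ (-1 * w)) (ball 0 1) := by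
      intro w hw
      exact AnalyticAt.comp (g := deriv Φ) (f := fun w : ℂ => -1 * w)
        (hA' _ (by simpa using hw)) (analyticAt_const.mul analyticAt_id)
    have hRan : AnalyticAt ℂ (fun w => deriv Φ (-1 * w) * (-1) / deriv Φ w) 0 :=
      ((hAn 0 h0b).mul analyticAt_const).div (hA' 0 h0b) (hd 0 h0b)
    have h2 := eq_of_real_near hRan (by
      filter_upwards [isOpen_ball.mem_nhds h0b] with w hw
      exact h1 w hw)
    have hB : AnalyticOnNhd ℂ (fun w => Φ (-w) + Φ w) (ball 0 1) := by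
      intro w hw
      exact (AnalyticAt.comp (g := Φ) (f := fun w : ℂ => -w) (hA _ (hnegb w hw))
        analyticAt_id.neg).add (hA w hw)
    have h3 : ∀ᶠ w in 𝓝 (0 : ℂ), deriv (fun w => Φ (-w) + Φ w) w = 0 := by
      filter_upwards [h2, isOpen_ball.mem_nhds h0b] with w hw hwb
      have hda : DifferentiableAt ℂ Φ (-w) :=
        hΦ.differentiableAt (isOpen_ball.mem_nhds (hnegb w hwb))
      have hdb : DifferentiableAt ℂ Φ w := hΦ.differentiableAt (isOpen_ball.mem_nhds hwb)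
      have e1 : HasDerivAt (fun w => Φ (-w)) (deriv Φ (-w) * (-1)) w :=
        HasDerivAt.comp w hda.hasDerivAt (hasDerivAt_neg w)
      have e3 : deriv (fun w => Φ (-w) + Φ w) w = deriv Φ (-w) * (-1) + deriv Φ w :=
        (e1.add hdb.hasDerivAt).deriv
      rw [e3]
      simp only [mul_zero] at hw
      rw [mul_comm (deriv Φ 0), mul_div_assoc (-1) (deriv Φ 0), div_self (hd 0 h0b), mul_one,
        div_eq_iff (hd w hwb)] at hw
      rw [neg_one_mul] at hw
      linear_combination hw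
    have h4 := const_of_deriv_zero_near (by
      filter_upwards [isOpen_ball.mem_nhds h0b] with w hw
      exact (hB w hw).differentiableAt) h3
    have h5 := hB.eqOn_of_preconnected_of_eventuallyEq
      (g := fun _ => 2 * Φ 0) analyticOnNhd_const
      (convex_ball (0 : ℂ) 1).isPreconnected h0b (by
        filter_upwards [h4] with w hw
        rw [hw, neg_zero]
        ring)
    exact h5
  -- the point `p`
  obtain ⟨p, hp2⟩ : ∃ p : ℂ, p ^ 2 = -e := ⟨_, sq_cpow_half (-e)⟩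
  have hp0 : p ≠ 0 := by
    rintro rfl
    apply he0
    linear_combination hp2
  have hp2n : ‖p ^ 2‖ < 1 := by rw [hp2, norm_neg]; exact he
  have hpn : ‖p‖ < 1 := by
    rw [norm_pow] at hp2n
    by_contra hc
    push Not at hc
    nlinarith [norm_nonneg p]
  have hpb : p ∈ ball (0 : ℂ) 1 := mem_ball_zero_iff.2 hpn
  have hene : ‖-e‖ < 1 := by rw [norm_neg]; exact he
  -- the root of unity
  set ω : ℂ := Complex.exp (2 * Real.pi * I / lc) with hωdef
  have hωp : IsPrimitiveRoot ω lc := Complex.isPrimitiveRoot_exp lc hlc0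
  have hω1 : ‖ω‖ = 1 := hωp.norm'_eq_one hlc0
  set S : ℂ → ℂ := fun u => mob (-e) (ω * mob e u) with hSdef
  have hSn : ∀ u : ℂ, ‖u‖ < 1 → ‖ω * mob e u‖ < 1 := by
    intro u hu
    rw [norm_mul, hω1, one_mul]
    exact mob_lt he hu
  have hSb : ∀ u : ℂ, ‖u‖ < 1 → ‖S u‖ < 1 := fun u hu => mob_lt hene (hSn u hu)
  have hMS : ∀ u : ℂ, ‖u‖ < 1 → mob e (S u) = ω * mob e u := fun u hu => mob_inv' he (hSn u hu)
  have hSd : ∀ u : ℂ, ‖u‖ < 1 → DifferentiableAt ℂ S u := by
    intro u hu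
    have h1 := (mob_hasDerivAt he hu).differentiableAt.const_mul ω
    have h2 := (mob_hasDerivAt hene (hSn u hu)).differentiableAt
    exact DifferentiableAt.comp (g := mob (-e)) u h2 h1
  have hSp : S (p ^ 2) = p ^ 2 := by
    simp only [hSdef]
    rw [hp2, mob_neg, mul_zero, mob_zero]
  have hSp' : deriv S (p ^ 2) = ω := by
    have h1 : (fun u => mob e (S u)) =ᶠ[𝓝 (p ^ 2)] fun u => ω * mob e u := by
      filter_upwards [isOpen_ball.mem_nhds (mem_ball_zero_iff.2 hp2n)] with u hu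
      exact hMS u (mem_ball_zero_iff.1 hu)
    have h2 := (mob_hasDerivAt he hp2n)
    have h3 : HasDerivAt (fun u => mob e (S u))
        ((1 - conj e * e) / (1 + conj e * p ^ 2) ^ 2 * deriv S (p ^ 2)) (p ^ 2) := by
      refine HasDerivAt.comp (h₂ := mob e) (h := S) (p ^ 2) ?_ (hSd _ hp2n).hasDerivAt
      rw [hSp]
      exact h2
    have h4 := h1.deriv_eq
    rw [h3.deriv, (h2.const_mul ω).deriv] at h4
    exact mul_left_cancel₀ (mob_deriv_ne he hp2n) (by rw [h4]; ring)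
  -- the deck map
  set τ : ℂ → ℂ := fun w => p * (S (w ^ 2) / p ^ 2) ^ (1 / 2 : ℂ) with hτdef
  have hp20 : p ^ 2 ≠ 0 := pow_ne_zero 2 hp0
  have hτ2 : ∀ w, τ w ^ 2 = S (w ^ 2) := by
    intro w
    simp only [hτdef]
    rw [mul_pow, sq_cpow_half]
    field_simp
  have hτp : τ p = p := by
    simp only [hτdef]
    rw [hSp, div_self hp20, one_cpow, mul_one]
  have hpow2 : ∀ w : ℂ, ‖w‖ < 1 → ‖w ^ 2‖ < 1 := fun w hw => pow_lt two_ne_zero hw
  have hτd : ∀ᶠ w in 𝓝 p, DifferentiableAt ℂ τ w := by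
    have hc : ContinuousAt (fun w : ℂ => S (w ^ 2) / p ^ 2) p := by
      refine ContinuousAt.div_const ?_ _
      exact ContinuousAt.comp (f := fun w : ℂ => w ^ 2) (g := S) (hSd _ hp2n).continuousAt
        (continuousAt_id.pow 2)
    have h1 : ∀ᶠ w in 𝓝 p, S (w ^ 2) / p ^ 2 ∈ slitPlane := by
      apply hc.eventually
      apply isOpen_slitPlane.mem_nhds
      simp only
      rw [hSp, div_self hp20]
      exact one_mem_slitPlane
    filter_upwards [h1, isOpen_ball.mem_nhds hpb] with w hw1 hw2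
    have h2 : DifferentiableAt ℂ (fun w : ℂ => S (w ^ 2) / p ^ 2) w := by
      refine DifferentiableAt.div_const ?_ _
      exact DifferentiableAt.comp (f := fun w : ℂ => w ^ 2) (g := S) w
        (hSd _ (hpow2 w (mem_ball_zero_iff.1 hw2))) (differentiableAt_pow 2)
    exact (h2.cpow_const hw1).const_mul p
  have hτA : AnalyticAt ℂ τ p := analyticAt_iff_eventually_differentiableAt.2 hτd
  have hτb : ∀ᶠ w in 𝓝 p, τ w ∈ ball (0 : ℂ) 1 := by
    apply hτA.continuousAt.eventually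
    rw [hτp]
    exact isOpen_ball.mem_nhds hpb
  have hτ' : deriv τ p = ω := by
    have h1 : HasDerivAt (fun w => τ w ^ 2) (2 * τ p ^ (2 - 1) * deriv τ p) p :=
      (hτA.differentiableAt.hasDerivAt).pow 2
    have h2 : HasDerivAt (fun w : ℂ => S (w ^ 2))
        (deriv S (p ^ 2) * (((2 : ℕ) : ℂ) * p ^ (2 - 1))) p :=
      HasDerivAt.comp (h₂ := S) (h := fun w : ℂ => w ^ 2) p (hSd _ hp2n).hasDerivAt
        (hasDerivAt_pow 2 p)
    have h3 : (fun w => τ w ^ 2) = fun w : ℂ => S (w ^ 2) := funext hτ2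
    rw [h3] at h1
    have h4 := h1.unique h2
    rw [hτp, hSp'] at h4
    norm_num at h4
    have h5 : 2 * p * (deriv τ p - ω) = 0 := by linear_combination h4
    rcases mul_eq_zero.1 h5 with h6 | h6
    · exact absurd h6 (mul_ne_zero two_ne_zero hp0)
    · linear_combination h6
  have hFτ : ∀ w : ℂ, ‖w‖ < 1 → pass e 2 lc (τ w) = pass e 2 lc w := by
    intro w hw
    unfold pass
    rw [hτ2, hMS _ (hpow2 w hw), mul_pow, hωp.pow_eq_one, one_mul]
  -- the quotient is analytic and real near `p`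
  set R : ℂ → ℂ := fun w => deriv Φ (τ w) * deriv τ w / deriv Φ w with hRdef
  have hRA : AnalyticAt ℂ R p := by
    refine AnalyticAt.div (AnalyticAt.mul ?_ hτA.deriv) (hA' p hpb) (hd p hpb)
    refine AnalyticAt.comp (g := deriv Φ) (f := τ) ?_ hτA
    rw [hτp]
    exact hA' p hpb
  have hRr : ∀ᶠ w in 𝓝[≠] p, (R w).im = 0 := by
    filter_upwards [hgood p hpb, nhdsWithin_le_nhds hτd, nhdsWithin_le_nhds hτb,
      nhdsWithin_le_nhds (isOpen_ball.mem_nhds hpb)] with w h1 h2 h3 h4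
    refine real_transfer hs hd h4 h3 h2 (hF _ h3) ?_ h1
    filter_upwards [isOpen_ball.mem_nhds h4] with z hz
    exact hFτ z (mem_ball_zero_iff.1 hz)
  have hRp0 : (R p).im = 0 := real_of_punctured hRA.continuousAt hRr
  have hRp : R p = ω := by
    simp only [hRdef]
    rw [hτp, hτ', mul_comm, mul_div_assoc, div_self (hd p hpb), mul_one]
  have hω2 : ω ^ 2 = 1 := sq_of_real hω1 (by rw [← hRp]; exact hRp0)
  have hlc2 : lc = 2 := by
    have h2 := Nat.le_of_dvd (by norm_num) (hωp.dvd_of_pow_eq_one 2 hω2)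
    omega
  have hωm : ω = -1 := by
    rw [hlc2] at hωp
    exact hωp.eq_neg_one_of_two_right
  have hRn : ∀ᶠ w in 𝓝 p, R w = -1 := by
    have h1 : ∀ᶠ w in 𝓝 p, (R w).im = 0 := by
      rw [eventually_nhdsWithin_iff] at hRr
      filter_upwards [hRr] with w hw
      by_cases h : w = p
      · rw [h]; exact hRp0
      · exact hw h
    filter_upwards [eq_of_real_near hRA h1] with w hw
    rw [hw, hRp, hωm]
  have hsum : ∀ᶠ w in 𝓝 p, Φ (τ w) + Φ w = 2 * Φ p := by
    have h1 : ∀ᶠ w in 𝓝 p, DifferentiableAt ℂ (fun w => Φ (τ w) + Φ w) w ∧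
        deriv (fun w => Φ (τ w) + Φ w) w = 0 := by
      filter_upwards [hRn, hτd, hτb, isOpen_ball.mem_nhds hpb] with w h1 h2 h3 h4
      have hda : DifferentiableAt ℂ Φ (τ w) := hΦ.differentiableAt (isOpen_ball.mem_nhds h3)
      have hdb : DifferentiableAt ℂ Φ w := hΦ.differentiableAt (isOpen_ball.mem_nhds h4)
      have e1 : HasDerivAt (fun w => Φ (τ w)) (deriv Φ (τ w) * deriv τ w) w :=
        HasDerivAt.comp w hda.hasDerivAt h2.hasDerivAt
      have e2 := e1.add hdb.hasDerivAt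
      refine ⟨e2.differentiableAt, ?_⟩
      have e3 : deriv (fun w => Φ (τ w) + Φ w) w = deriv Φ (τ w) * deriv τ w + deriv Φ w :=
        e2.deriv
      rw [e3]
      simp only [hRdef] at h1
      rw [div_eq_iff (hd w h4)] at h1
      linear_combination h1
    have h2 := const_of_deriv_zero_near (h1.mono fun w hw => hw.1) (h1.mono fun w hw => hw.2)
    filter_upwards [h2] with w hw
    rw [hw, hτp]
    ring
  -- the square of `φ`
  set φ : ℂ → ℂ := fun w => Φ w - Φ 0 with hφdef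
  have hφA : AnalyticOnNhd ℂ φ (ball 0 1) := fun w hw => (hA w hw).sub analyticAt_const
  have hφodd : ∀ w ∈ ball (0 : ℂ) 1, φ (-w) = -φ w := by
    intro w hw
    simp only [hφdef]
    linear_combination hodd w hw
  obtain ⟨Ψ, hΨd, hΨ⟩ := even_sq (g := fun w => φ w ^ 2)
    (fun w hw => ((hφA w hw).pow 2).differentiableAt.differentiableWithinAt)
    (fun w hw => by simp only [hφodd w hw]; ring)
  have hΨA : AnalyticOnNhd ℂ Ψ (ball 0 1) := hΨd.analyticOnNhd isOpen_ball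
  set s0 : ℂ := 2 * φ p with hs0
  have hLA : AnalyticOnNhd ℂ (fun w : ℂ => Ψ (S (w ^ 2))) (ball 0 1) := by
    refine DifferentiableOn.analyticOnNhd ?_ isOpen_ball
    intro w hw
    have hw2 := hpow2 w (mem_ball_zero_iff.1 hw)
    refine DifferentiableAt.differentiableWithinAt ?_
    have h1 : DifferentiableAt ℂ (fun w : ℂ => S (w ^ 2)) w :=
      DifferentiableAt.comp (f := fun w : ℂ => w ^ 2) (g := S) w (hSd _ hw2)
        (differentiableAt_pow 2)
    exact DifferentiableAt.comp (f := fun w : ℂ => S (w ^ 2)) (g := Ψ) w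
      (hΨA _ (mem_ball_zero_iff.2 (hSb _ hw2))).differentiableAt h1
  have hEq : EqOn (fun w : ℂ => Ψ (S (w ^ 2))) (fun w => (s0 - φ w) ^ 2) (ball 0 1) := by
    refine hLA.eqOn_of_preconnected_of_eventuallyEq
      (fun w hw => (analyticAt_const.sub (hφA w hw)).pow 2)
      (convex_ball (0 : ℂ) 1).isPreconnected hpb ?_
    filter_upwards [hsum, hτb] with w h1 h2
    rw [← hτ2 w, ← hΨ _ h2]
    simp only [hs0, hφdef]
    have h3 : Φ (τ w) = 2 * Φ p - Φ w := by linear_combination h1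
    rw [h3]
    ring
  -- the point `w1`
  obtain ⟨w1, hw1⟩ : ∃ w1 : ℂ, w1 ^ 2 = S 0 := ⟨_, sq_cpow_half (S 0)⟩
  have h00 : ‖(0 : ℂ)‖ < 1 := by simp
  have hS0n : ‖S 0‖ < 1 := hSb 0 h00
  have hw1n : ‖w1‖ < 1 := by
    have : ‖w1 ^ 2‖ < 1 := by rw [hw1]; exact hS0n
    rw [norm_pow] at this
    by_contra hc
    push Not at hc
    nlinarith [norm_nonneg w1]
  have hw1b : w1 ∈ ball (0 : ℂ) 1 := mem_ball_zero_iff.2 hw1n
  have hw10 : w1 ≠ 0 := by
    rintro rfl
    have h1 : S 0 = 0 := by rw [← hw1]; ring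
    have h2 := hMS 0 h00
    rw [h1, mob_zero, hωm] at h2
    apply he0
    linear_combination h2 / 2
  have hSS : ∀ u : ℂ, ‖u‖ < 1 → S (S u) = u := by
    intro u hu
    have h1 : S (S u) = mob (-e) (ω * mob e (S u)) := rfl
    rw [h1, hMS u hu, hωm]
    have h2 : (-1 : ℂ) * (-1 * mob e u) = mob e u := by ring
    rw [h2]
    exact mob_inv he hu
  have hS' : deriv S (S 0) ≠ 0 := by
    intro h
    have h1 : HasDerivAt (fun u => S (S u)) (deriv S (S 0) * deriv S 0) 0 :=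
      HasDerivAt.comp (h₂ := S) (h := S) 0 (hSd _ hS0n).hasDerivAt (hSd 0 h00).hasDerivAt
    have h2 : (fun u => S (S u)) =ᶠ[𝓝 0] fun u => u := by
      filter_upwards [isOpen_ball.mem_nhds h0b] with u hu
      exact hSS u (mem_ball_zero_iff.1 hu)
    have h3 := h2.deriv_eq
    rw [h1.deriv, h, zero_mul] at h3
    have h4 : deriv (fun u : ℂ => u) 0 = 1 := deriv_id 0
    rw [h4] at h3
    exact zero_ne_one h3
  -- `Ψ' (0) ≠ 0`
  have hφ0 : φ 0 = 0 := by simp [hφdef]
  have hΨ0 : Ψ 0 = 0 := by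
    have := hΨ 0 h0b
    simp only [hφ0] at this
    rw [zero_pow two_ne_zero] at this
    exact this.symm
  have hΨ' : deriv Ψ 0 ≠ 0 := by
    have h1 : HasDerivAt Ψ (deriv Ψ 0) 0 := (hΨA 0 h0b).differentiableAt.hasDerivAt
    have h2 : HasDerivAt φ (deriv Φ 0) 0 := by
      have := (hA 0 h0b).differentiableAt.hasDerivAt.sub_const (Φ 0)
      exact this
    have h3 := hasDerivAt_iff_tendsto_slope.1 h1
    have h4 := hasDerivAt_iff_tendsto_slope.1 h2
    have h5 : Tendsto (fun w : ℂ => w ^ 2) (𝓝[≠] 0) (𝓝[≠] 0) := by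
      refine tendsto_nhdsWithin_iff.2 ⟨?_, ?_⟩
      · have : ContinuousAt (fun w : ℂ => w ^ 2) 0 := continuousAt_id.pow 2
        have h6 := this.tendsto
        simp only [ne_eq, OfNat.ofNat_ne_zero, not_false_eq_true, zero_pow] at h6
        exact h6.mono_left nhdsWithin_le_nhds
      · filter_upwards [self_mem_nhdsWithin] with w hw
        exact pow_ne_zero 2 hw
    have h6 := h3.comp h5
    have h7 : Tendsto (fun w => slope φ 0 w ^ 2) (𝓝[≠] 0) (𝓝 (deriv Φ 0 ^ 2)) := h4.pow 2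
    have h8 : (slope Ψ 0 ∘ fun w : ℂ => w ^ 2) =ᶠ[𝓝[≠] 0] fun w => slope φ 0 w ^ 2 := by
      filter_upwards [nhdsWithin_le_nhds (isOpen_ball.mem_nhds h0b)] with w hw
      simp only [Function.comp, slope_def_field, hφ0, hΨ0, sub_zero]
      rw [← hΨ w hw, div_pow]
    have h9 := tendsto_nhds_unique (h6.congr' h8) h7
    rw [h9]
    exact pow_ne_zero 2 (hd 0 h0b)
  -- the contradiction at `w1`
  have hL : HasDerivAt (fun w : ℂ => Ψ (S (w ^ 2)))
      (deriv Ψ 0 * (deriv S (S 0) * (((2 : ℕ) : ℂ) * w1 ^ (2 - 1)))) w1 := by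
    have h1 : HasDerivAt (fun w : ℂ => S (w ^ 2))
        (deriv S (S 0) * (((2 : ℕ) : ℂ) * w1 ^ (2 - 1))) w1 := by
      refine HasDerivAt.comp (h₂ := S) (h := fun w : ℂ => w ^ 2) w1 ?_ (hasDerivAt_pow 2 w1)
      rw [hw1]
      exact (hSd _ hS0n).hasDerivAt
    refine HasDerivAt.comp (h₂ := Ψ) (h := fun w : ℂ => S (w ^ 2)) w1 ?_ h1
    rw [hw1, hSS 0 h00]
    exact (hΨA 0 h0b).differentiableAt.hasDerivAt
  have hz : (s0 - φ w1) ^ 2 = 0 := by
    have h1 := hEq hw1b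
    simp only at h1
    rw [hw1, hSS 0 h00, hΨ0] at h1
    exact h1.symm
  have hz1 : s0 - φ w1 = 0 := by
    exact pow_eq_zero_iff two_ne_zero |>.1 hz
  have hRt : HasDerivAt (fun w => (s0 - φ w) ^ 2)
      (((2 : ℕ) : ℂ) * (s0 - φ w1) ^ (2 - 1) * (-deriv φ w1)) w1 := by
    have h1 : HasDerivAt (fun w => s0 - φ w) (-deriv φ w1) w1 :=
      (hφA w1 hw1b).differentiableAt.hasDerivAt.const_sub s0
    exact h1.pow 2
  have hEe : (fun w : ℂ => Ψ (S (w ^ 2))) =ᶠ[𝓝 w1] fun w => (s0 - φ w) ^ 2 := by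
    filter_upwards [isOpen_ball.mem_nhds hw1b] with w hw
    exact hEq hw
  have hfin := hEe.deriv_eq
  rw [hL.deriv, hRt.deriv, hz1] at hfin
  have : deriv Ψ 0 * (deriv S (S 0) * (((2 : ℕ) : ℂ) * w1 ^ (2 - 1))) ≠ 0 :=
    mul_ne_zero hΨ' (mul_ne_zero hS' (mul_ne_zero (by norm_num) (pow_ne_zero _ hw10)))
  apply this
  rw [hfin]
  ring

end Pool.H81.MM
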