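import Pool.Agent.H47.MM.Defs
import Pool.Agent.H81.MM.Two

/-!
# The exact two pass law in the form used by THEOREM M

`no_pf`: the field of a holomorphic `φ` without critical points cannot be pushed forward by two passes
`FF e p q`.
-/

set_option autoImplicit false

open Filter Topology Metric Set

namespace Pool.H81.MM

open Pool.Agent.H47.OI (PF)
open Pool.Agent.H47.MM (FF Me)

theorem conj_of_sq {x y : ℂ} {t : ℝ} (ht : 0 < t) (h : x ^ 2 = t * y ^ 2) :
    (starRingEnd ℂ) x * y = (starRingEnd ℂ) y * x := by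
  have h1 : ((Real.sqrt t : ℝ) : ℂ) ^ 2 = (t : ℂ) := by
    rw [← Complex.ofReal_pow, Real.sq_sqrt ht.le]
  have h2 : x ^ 2 = ((Real.sqrt t : ℝ) * y) ^ 2 := by rw [mul_pow, h1]; exact h
  rcases eq_or_neg_of_sq h2 with h3 | h3
  · rw [h3, map_mul, Complex.conj_ofReal]; ring
  · rw [h3, map_neg, map_mul, Complex.conj_ofReal]; ring

theorem inv_of_pf {F φ : ℂ → ℂ} (h : PF (ball 0 1) F φ) : Inv F φ := by
  intro w hw w' hw' hF h1 h2
  obtain ⟨t, ht, he⟩ := h w hw w' hw' hF h1 h2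
  have h3 := conj_of_sq ht he
  rw [map_mul, map_mul] at h3
  linear_combination h3

/-- two passes: no field can be pushed forward -/
theorem no_pf {p q : ℕ} (hp : 2 ≤ p) (hq : 2 ≤ q) {e : ℂ} (he : ‖e‖ < 1) {φ : ℂ → ℂ}
    (hφ : DifferentiableOn ℂ φ (ball 0 1)) (hd : ∀ w ∈ ball (0 : ℂ) 1, deriv φ w ≠ 0)
    (h : PF (ball 0 1) (FF e p q) φ) : False :=
  two_pass hp hq he hφ hd (inv_of_pf h)

end Pool.H81.MM
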